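import Pool.Agent.Q120.GL.Fin
import Pool.Agent.Q120.GM.Exists

/-!
# Goldbach's problem in the sieved models of all levels

`z : ℕ → ℕ` gives the level: on the block `2 ^ k ≤ n < 2 ^ (k + 1)` the random set contains each `n` without prime
factors `p < z k` independently with probability `1 / (V log n)` (at most `1`), `V = ∏_{p < z k} (1 - 1/p)`, and no other
`n`. `gold S n` is the number of ordered representations of `n` as a sum of two elements of `S`, `HLt n` the term of the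
conjecture of Hardy and Littlewood.
-/

set_option autoImplicit false

namespace Pool.Agent.Results.MP_629a14_nt.GoldbachAtAllLevels

open Finset MeasureTheory Filter Pool.Agent.Q120.MG Pool.Agent.Q120.GM Pool.Agent.Q120.CL Pool.Agent.Q120.HL Pool.Agent.Q120.GL
open scoped Topology

/-- The question for the set `S` in place of the primes. -/
def Order (S : Set ℕ) : Prop := ∃ c C : ℝ, 0 < c ∧ ∀ᶠ n : ℕ in atTop, Even n →
  c * ((n : ℝ) ^ 2 / (Nat.totient n * Real.log n ^ 2)) ≤ gold S n ∧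
    (gold S n : ℝ) ≤ C * ((n : ℝ) ^ 2 / (Nat.totient n * Real.log n ^ 2))

/-- The asymptotic formula of Hardy and Littlewood for the set `S`. -/
def Asymptotic (S : Set ℕ) : Prop := ∀ ε : ℝ, 0 < ε → ∀ᶠ n : ℕ in atTop, Even n →
  |(gold S n : ℝ) - HLt n| ≤ ε * HLt n

variable {Ω : Type} [MeasurableSpace Ω] {μ : Measure Ω} [IsProbabilityMeasure μ] {A : Ω → Set ℕ} {z : ℕ → ℕ}

theorem HLt_order {n : ℕ} (he : Even n) (hn : 2 ≤ n) :
    1 / 2 * ((n : ℝ) ^ 2 / (Nat.totient n * Real.log n ^ 2)) ≤ HLt n ∧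
      HLt n ≤ (n : ℝ) ^ 2 / (Nat.totient n * Real.log n ^ 2) := by
  obtain ⟨_, _, h1, h2⟩ := Pool.Agent.Q65.GL.t_SER.1 n he hn
  have hl : 0 < Real.log n := Real.log_pos (by exact_mod_cast (show 1 < n by omega))
  have e1 : (n : ℝ) ^ 2 / (Nat.totient n * Real.log n ^ 2) = (n : ℝ) / Nat.totient n * (n / Real.log n ^ 2) := by
    rw [div_mul_div_comm]
    congr 1
    ring
  have e2 : HLt n = SS {0, n} * (n / Real.log n ^ 2) := by
    unfold HLt
    rw [mul_div_assoc]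
  have h3 : (0 : ℝ) ≤ n / Real.log n ^ 2 := by positivity
  rw [e1, e2]
  constructor
  · have := mul_le_mul_of_nonneg_right h1 h3
    linarith
  · exact mul_le_mul_of_nonneg_right h2 h3

theorem false_of_ae {P : Ω → Prop} (h : ∀ᵐ ω ∂μ, P ω) (h' : ∀ ω, ¬ P ω) : False := by
  have h2 : ∀ᵐ _ω ∂μ, False := h.mono (fun ω hω => h' ω hω)
  rw [eventually_false_iff_eq_bot, ae_eq_bot] at h2
  have h3 : μ Set.univ = 1 := measure_univ
  rw [h2] at h3
  simp at h3

theorem tendsto_of_pow {z : ℕ → ℕ} {c : ℝ} (hc : 0 < c) (h : ∀ᶠ k : ℕ in atTop, (k : ℝ) ^ c ≤ z k) : Tendsto z atTop atTop := by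
  have h1 : Tendsto (fun k : ℕ => (k : ℝ) ^ c) atTop atTop := (tendsto_rpow_atTop hc).comp tendsto_natCast_atTop_atTop
  have h2 : Tendsto (fun k : ℕ => (z k : ℝ)) atTop atTop := tendsto_atTop_mono' _ h h1
  exact tendsto_natCast_atTop_iff.1 h2

/-- The exact law at all levels up to `x ^ o(1)`, with the existence of the models. -/
theorem result :
    (∀ z : ℕ → ℕ, ∃ (Ω : Type) (_ : MeasurableSpace Ω) (μ : Measure Ω) (_ : IsProbabilityMeasure μ) (A : Ω → Set ℕ),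
      IsModel μ (pr z) A) ∧
    ∀ z : ℕ → ℕ, Monotone z → Tendsto (fun k : ℕ => Real.log (z k) / k) atTop (𝓝 0) →
      ∀ (Ω : Type) [MeasurableSpace Ω] (μ : Measure Ω) [IsProbabilityMeasure μ] (A : Ω → Set ℕ), IsModel μ (pr z) A →
        (Tendsto z atTop atTop → ∀ᵐ ω ∂μ, ∀ ε : ℝ, 0 < ε →
          (∀ᶠ n : ℕ in atTop, Even n → (gold (A ω) n : ℝ) ≤ (1 + ε) * HLt n) ∧
          (∀ᶠ K : ℕ in atTop, (1 - ε) * HLt (2 ^ K) ≤ gold (A ω) (2 ^ K))) ∧
        (∀ θ : ℝ, 0 < θ → θ ≤ 1 → (∀ δ : ℝ, 0 < δ → ∀ᶠ k : ℕ in atTop, (k : ℝ) ^ (θ - δ) ≤ z k) →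
          ∀ᵐ ω ∂μ, ∀ ε : ℝ, 0 < ε → ∀ᶠ n : ℕ in atTop, Even n → (θ - ε) * HLt n ≤ gold (A ω) n) ∧
        (∀ θ : ℝ, 0 ≤ θ → θ < 1 → (∀ δ : ℝ, 0 < δ → ∃ᶠ k : ℕ in atTop, (z k : ℝ) ≤ (k : ℝ) ^ (θ + δ)) →
          ∀ᵐ ω ∂μ, ∀ ε : ℝ, 0 < ε → ∃ᶠ n : ℕ in atTop, Even n ∧ (gold (A ω) n : ℝ) ≤ (θ + ε) * HLt n) ∧
        ((∀ᵐ ω ∂μ, Order (A ω)) ↔ ∃ c : ℝ, 0 < c ∧ ∀ᶠ k : ℕ in atTop, (k : ℝ) ^ c ≤ z k) ∧
        ((∀ᵐ ω ∂μ, Asymptotic (A ω)) ↔ ∀ δ : ℝ, 0 < δ → ∀ᶠ k : ℕ in atTop, (k : ℝ) ^ (1 - δ) ≤ z k) := by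
  refine ⟨fun z => ⟨_, inferInstance, prodMeasure (pr z), inferInstance, trueSet,
    isModel (pr z) (pr_nonneg z) (pr_le_one z)⟩, fun z hz hl Ω _ μ _ A hA => ⟨fun hinf => ?_, fun θ hθ hθ1 hlow =>
    lower hz hl hθ hθ1 hlow hA, fun θ hθ hθ1 hfreq => extremal hz hl hθ hθ1 hfreq hA, ⟨fun h => ?_, fun h => ?_⟩,
    ⟨fun h => ?_, fun h => ?_⟩⟩⟩
  · filter_upwards [upper hz hl hinf hA, powers hz hl hinf hA] with ω h1 h2 ε hε
    exact ⟨h1 ε hε, h2 ε hε⟩
  · by_contra hcon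
    have hfreq : ∀ δ : ℝ, 0 < δ → ∃ᶠ k : ℕ in atTop, (z k : ℝ) ≤ (k : ℝ) ^ (0 + δ) := by
      intro δ hδ
      rw [zero_add]
      by_contra h1
      apply hcon
      refine ⟨δ, hδ, ?_⟩
      rw [not_frequently] at h1
      exact h1.mono (fun k hk => (not_le.1 hk).le)
    refine false_of_ae (μ := μ) (h.and (extremal hz hl le_rfl one_pos hfreq hA)) ?_
    rintro ω ⟨⟨c, C, hc, h1⟩, h2⟩
    obtain ⟨n, ⟨he, h3⟩, h4, h5⟩ := ((h2 (c / 2) (by positivity)).and_eventually (h1.and (eventually_ge_atTop 3))).exists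
    have h6 := (h4 he).1
    have h7 := (HLt_order he (by omega)).2
    have hl : 0 < Real.log n := Real.log_pos (by exact_mod_cast (show 1 < n by omega))
    have hφ : (0 : ℝ) < Nat.totient n := by exact_mod_cast Nat.totient_pos.2 (show 0 < n by omega)
    have hn0 : (0 : ℝ) < n := by exact_mod_cast (show 0 < n by omega)
    have h8 : 0 < (n : ℝ) ^ 2 / (Nat.totient n * Real.log n ^ 2) := by positivity
    have h9 : (0 + c / 2) * HLt n ≤ (0 + c / 2) * ((n : ℝ) ^ 2 / (Nat.totient n * Real.log n ^ 2)) :=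
      mul_le_mul_of_nonneg_left h7 (by positivity)
    have h10 := mul_pos hc h8
    linarith
  · obtain ⟨c, hc, h1⟩ := h
    obtain ⟨θ, hθ⟩ : ∃ θ : ℝ, θ = min c 1 := ⟨_, rfl⟩
    have hθ0 : 0 < θ := by rw [hθ]; exact lt_min hc one_pos
    have hθ1 : θ ≤ 1 := by rw [hθ]; exact min_le_right _ _
    have hθc : θ ≤ c := by rw [hθ]; exact min_le_left _ _
    have hlow : ∀ δ : ℝ, 0 < δ → ∀ᶠ k : ℕ in atTop, (k : ℝ) ^ (θ - δ) ≤ z k := by
      intro δ hδ
      filter_upwards [h1, eventually_ge_atTop 1] with k hk hk1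
      refine le_trans (Real.rpow_le_rpow_of_exponent_le (by exact_mod_cast hk1) (by linarith)) hk
    filter_upwards [upper hz hl (tendsto_of_pow hc h1) hA, lower hz hl hθ0 hθ1 hlow hA] with ω h2 h3
    refine ⟨θ / 4, 2, by positivity, ?_⟩
    filter_upwards [h2 1 one_pos, h3 (θ / 2) (by positivity), eventually_ge_atTop 3] with n h4 h5 hn he
    obtain ⟨h6, h7⟩ := HLt_order he (show 2 ≤ n by omega)
    refine ⟨?_, ?_⟩
    · refine le_trans ?_ (h5 he)
      have := mul_le_mul_of_nonneg_left h6 (show (0 : ℝ) ≤ θ / 2 by positivity)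
      linarith
    · have h8 := h4 he
      have := mul_le_mul_of_nonneg_left h7 (show (0 : ℝ) ≤ 2 by norm_num)
      linarith
  · intro δ hδ
    by_contra hcon
    obtain ⟨δ', hδ'⟩ : ∃ δ' : ℝ, δ' = min δ 1 := ⟨_, rfl⟩
    have hδ0 : 0 < δ' := by rw [hδ']; exact lt_min hδ one_pos
    have hδ1 : δ' ≤ 1 := by rw [hδ']; exact min_le_right _ _
    have hδδ : δ' ≤ δ := by rw [hδ']; exact min_le_left _ _
    have hfreq : ∀ η : ℝ, 0 < η → ∃ᶠ k : ℕ in atTop, (z k : ℝ) ≤ (k : ℝ) ^ (1 - δ' + η) := by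
      intro η hη
      rw [not_eventually] at hcon
      refine (hcon.and_eventually (eventually_ge_atTop 1)).mono ?_
      rintro k ⟨hk, hk1⟩
      refine (not_le.1 hk).le.trans (Real.rpow_le_rpow_of_exponent_le (by exact_mod_cast hk1) (by linarith))
    refine false_of_ae (μ := μ) (h.and (extremal hz hl (by linarith) (by linarith) hfreq hA)) ?_
    rintro ω ⟨h1, h2⟩
    obtain ⟨n, ⟨he, h3⟩, h4, h5⟩ := ((h2 (δ' / 4) (by positivity)).and_eventually
      ((h1 (δ' / 4) (by positivity)).and (eventually_ge_atTop 3))).exists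
    have h6 := (abs_le.1 (h4 he)).1
    have hSS := SS_one he (show 2 ≤ n by omega)
    have hl : 0 < Real.log n := Real.log_pos (by exact_mod_cast (show 1 < n by omega))
    have hn0 : (0 : ℝ) < n := by exact_mod_cast (show 0 < n by omega)
    have h7 : 0 < HLt n := by
      unfold HLt
      positivity
    have h8 := mul_pos (show 0 < δ' / 2 by positivity) h7
    nlinarith
  · have hinf : Tendsto z atTop atTop := tendsto_of_pow (show (0 : ℝ) < 1 - 1 / 2 by norm_num) (h (1 / 2) (by norm_num))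
    filter_upwards [upper hz hl hinf hA, lower hz hl one_pos le_rfl (fun δ hδ => h δ hδ) hA] with ω h2 h3 ε hε
    filter_upwards [h2 ε hε, h3 ε hε] with n h4 h5 he
    have h6 := h4 he
    have h7 := h5 he
    rw [abs_le]
    constructor <;> linarith

end Pool.Agent.Results.MP_629a14_nt.GoldbachAtAllLevels
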