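import Pool.Agent.Q157.LG.Graph2

/-!
# The order of magnitude of Goldbach representations or of prime pairs: no four independent points

For a scale `X` join two integers `b < b'` of `[0, X / 2]`, or two integers of `[X / 4, X / 2]`, if a
positive proportion of the integers `h` with `b' - b < h ≤ b' - b + C log X` are differences of at least
`δ h / φ(h) · X / log² X` pairs of primes up to `X`, and join `a ∈ [X / 4, X / 2]` and `b ∈ [0, X / 2]` if
a positive proportion of the integers `m` of `[a + b, a + b + C log X]` satisfy the lower bound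
`r₂(m) ≥ δ m² / (φ(m) log² m)` of the question. Then any four points contain two joined ones:

for all large `X` and all sets `A` of integers of `[X / 4, X / 2]` and `B` of integers of `[0, X / 2]` with
`|A| + |B| ≥ 4` two elements of `B`, or two elements of `A`, or an element of `A` and an element of `B`
are joined.

For instance, if `d` is not joined to `0` (the differences near `d` are bad at the scale `X`), then for
EVERY `a` one of the windows of length `C log X` at `a`, `a + d`, `a + 2 d` contains a positive proportion
of integers `m` with the lower bound of the question (`A = {a, a + d}`, `B = {0, d}`).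

Proof (unconditional; modules `Pool.Agent.Q157.LG`). More than a quarter of the windows of length
`C log X` of each of the forms `n + b`, `a - n` contain a prime (uniformly in `a`, `b`; this is the case of
one form of the theorem of `MP_6a20cc_nt.QuarterOfEverySystem`), so two of any four forms are hit for a
positive proportion of the `n`. A double counting shows that the average over the window of the number of
representations (of prime pairs) has the right order of magnitude. Upper bound sieves
`r₂(m) ≤ C (m / φ(m))² m / log² m` (proved here, `gold_up`, by the Selberg sieve and an auxiliary prime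
`≡ -1` modulo the small primes) and the fourth moment of `m / φ(m)` over windows of length `log X`
(`win4`) turn the average into a positive proportion of the window, with the factor `m / φ(m)`.
-/

set_option autoImplicit false

namespace Pool.Agent.Results.MP_629a14_nt.GoldbachPolignacGraph

open Finset Filter

/-- `r₂(m)`: the number of ordered representations `m = p + q` with `p`, `q` prime, that is, of primes
`p ≤ m` for which `m - p` is prime -/
def r2 (m : ℕ) : ℕ := ((Icc 1 m).filter (fun p => p.Prime ∧ (m - p).Prime)).card

/-- the number of primes `p ≤ x` for which `p + h` is prime -/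
def pairs (h x : ℕ) : ℕ := ((Icc 1 x).filter (fun p => p.Prime ∧ (p + h).Prime)).card

/-- at least `δ log X` of the integers `h` with `d < h ≤ d + C ⌈log X⌉` satisfy
`pairs h X ≥ δ · h / φ(h) · X / log² X` -/
def GoodDiff (C : ℕ) (δ : ℝ) (X d : ℕ) : Prop :=
  δ * Real.log X ≤ (((Icc (d + 1) (d + C * ⌈Real.log X⌉₊)).filter (fun h : ℕ =>
    δ * ((h : ℝ) / (Nat.totient h : ℝ) * (X / (Real.log X) ^ 2)) ≤ pairs h X)).card : ℝ)

/-- at least `δ log X` of the integers `m` with `t ≤ m ≤ t + C ⌈log X⌉` satisfy
`r₂(m) ≥ δ · m / φ(m) · m / log² m` -/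
def GoodSum (C : ℕ) (δ : ℝ) (X t : ℕ) : Prop :=
  δ * Real.log X ≤ (((Icc t (t + C * ⌈Real.log X⌉₊)).filter (fun m : ℕ =>
    δ * ((m : ℝ) / (Nat.totient m : ℝ) * (m / (Real.log m) ^ 2)) ≤ r2 m)).card : ℝ)

theorem result : ∃ (C : ℕ) (δ : ℝ), 0 < δ ∧ ∃ X₀ : ℕ, ∀ X : ℕ, X₀ ≤ X → ∀ A B : Finset ℕ,
    (∀ a ∈ A, X ≤ 4 * a ∧ 2 * a ≤ X) → (∀ b ∈ B, 2 * b ≤ X) → 4 ≤ A.card + B.card →
    (∃ b ∈ B, ∃ b' ∈ B, b < b' ∧ GoodDiff C δ X (b' - b)) ∨
    (∃ a ∈ A, ∃ a' ∈ A, a < a' ∧ GoodDiff C δ X (a' - a)) ∨
    (∃ a ∈ A, ∃ b ∈ B, GoodSum C δ X (a + b)) := by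
  obtain ⟨C, δ, hδ, h⟩ := Q157.LG.graph
  obtain ⟨X₀, hX₀⟩ := eventually_atTop.1 h
  exact ⟨C, δ, hδ, X₀, fun X hX A B hA hB hAB => hX₀ X hX A B hA hB hAB⟩

end Pool.Agent.Results.MP_629a14_nt.GoldbachPolignacGraph
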