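import Pool.Agent.Q148.FN.Gb

/-!
# The linear sieve at the level `5/9` for the numbers `n - p`, outside a polylogarithmic exceptional set

(1) For all even `a ≤ N` with at most `C (log N)^B` exceptions, and for all `y ≤ N`: at most
`(18/5 y + ε N) 𝔖(a) / log² N` of the primes `p ≤ y` have `|p - a|` prime, and for at least
`(18/5 log(5/(9u) - 1) y - ε N) 𝔖(a) / log² N` of them all the prime factors of `|p - a|` are at least `N^u`
(`5/36 ≤ u < 5/18`). (2) For all even `n ≤ X` with at most `C (log X)^B` exceptions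
`r₂(n) ≤ (18/5 + ε) 𝔖(n) n / log² n`, and at least `(18/5 log(5/(9u) - 1) - ε) 𝔖(n) n / log² n` of the primes
`p < n` are such that all the prime factors of `n - p` are at least `n^u`.
-/

set_option autoImplicit false

namespace Pool.Agent.Results.MP_629a14_nt.LinearSieveFiveNinths

open Finset

/-- the constant of the twin primes: the infimum (the limit) of the decreasing products
`∏_{3 ≤ p ≤ z} (1 - 1/(p-1)²)` -/
noncomputable def twin : ℝ := ⨅ z : ℕ, ∏ p ∈ (Icc 3 z).filter Nat.Prime, (1 - 1 / ((p : ℝ) - 1) ^ 2)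

/-- the singular series of an even number: `2 C₂ ∏_{p ∣ n, p > 2} (p - 1)/(p - 2)` -/
noncomputable def sing (n : ℕ) : ℝ :=
  2 * twin * ∏ p ∈ n.primeFactors.filter (fun p => 2 < p), ((p : ℝ) - 1) / ((p : ℝ) - 2)

/-- the primes `≤ y` -/
def primes (y : ℕ) : Finset ℕ := (Icc 1 y).filter Nat.Prime

/-- the number of the primes `p ≤ y` for which `|p - a|` is a prime -/
noncomputable def pairCount (a y : ℕ) : ℝ := (((primes y).filter (fun p => ((p - a) + (a - p)).Prime)).card : ℝ)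

open Classical in
/-- the number of the primes `p ≤ y`, `p ≠ a`, such that all the prime factors of `|p - a|` are at least `z` -/
noncomputable def almostCount (a y : ℕ) (z : ℝ) : ℝ :=
  (((primes y).filter (fun p => p ≠ a ∧ ∀ q : ℕ, q.Prime → q ∣ (p - a) + (a - p) → z ≤ q)).card : ℝ)

/-- `r₂(n)`: the number of ordered representations of `n` as a sum of two primes -/
noncomputable def r₂ (n : ℕ) : ℝ := (((primes n).filter (fun p => (n - p).Prime)).card : ℝ)

open Classical in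
/-- the number of the primes `p < n` such that all the prime factors of `n - p` are at least `z` -/
noncomputable def rough (n : ℕ) (z : ℝ) : ℝ :=
  (((primes n).filter (fun p => p < n ∧ ∀ q : ℕ, q.Prime → q ∣ n - p → z ≤ q)).card : ℝ)

theorem result (u ε : ℝ) (hu1 : 5 / 36 ≤ u) (hu2 : u < 5 / 18) (hε : 0 < ε) (hε1 : ε ≤ 1) :
    (∃ (B : ℕ) (C : ℝ), ∀ N : ℕ, 3 ≤ N → ∃ Ex : Finset ℕ, (Ex.card : ℝ) ≤ C * Real.log N ^ B ∧
      ∀ a : ℕ, 1 ≤ a → a ≤ N → a ∉ Ex → Even a → ∀ y : ℕ, y ≤ N →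
        pairCount a y ≤ (18 / 5 * y + ε * N) * (sing a / Real.log N ^ 2) ∧
        (18 / 5 * Real.log (5 / (9 * u) - 1) * y - ε * N) * (sing a / Real.log N ^ 2) ≤
          almostCount a y ((N : ℝ) ^ u)) ∧
    (∃ (B : ℕ) (C : ℝ), ∀ X : ℕ, 3 ≤ X → ∃ Ex : Finset ℕ, (Ex.card : ℝ) ≤ C * Real.log X ^ B ∧
      ∀ n : ℕ, 1 ≤ n → n ≤ X → n ∉ Ex → Even n →
        r₂ n ≤ (18 / 5 + ε) * (sing n * n / Real.log n ^ 2) ∧
        (18 / 5 * Real.log (5 / (9 * u) - 1) - ε) * (sing n * n / Real.log n ^ 2) ≤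
          rough n ((n : ℝ) ^ u)) := by
  classical
  constructor
  · obtain ⟨B, C, _, H⟩ := Pool.Agent.Q148.FN.uniform u ε hu1 hu2 hε hε1
    exact ⟨B, C, H⟩
  · obtain ⟨B, C, H⟩ := Pool.Agent.Q148.FN.goldbach u ε hu1 hu2 hε hε1
    refine ⟨B, C, fun X hX => ⟨_, H X hX, fun n h1 h2 h3 h4 => ?_⟩⟩
    by_contra hc
    exact h3 (mem_filter.2 ⟨mem_Icc.2 ⟨h1, h2⟩, h4, hc⟩)

end Pool.Agent.Results.MP_629a14_nt.LinearSieveFiveNinths
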