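import Pool.Agent.Q253.Thin.GoldSample

/-!
# Sparse sets of primes that represent the Goldbach counts of all even numbers

Question Q1 asks whether the number of representations `N = p + p'` is at least of the order
`N ^ 2 / (φ N * log N ^ 2)` for every even `N`, that is, whether among the primes `p` of a dyadic interval
below `N` at least the proportion `δ (N / φ N) / log N` has `N - p` prime.

We show that this question can be read off from `K log ^ 2 x` primes of `(x, 2 x]`, the same ones for all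
even `N` in `[4 x, 8 x]`: for all `m` between `K log ^ 2 x` and the number of primes of `(x, 2 x]` there is
a set `S` of about `m` of these primes such that, for EVERY even `N` in `[4 x, 8 x]`,

* the number of `p` in `S` with `N - p` prime is the expected proportion of the number for all primes of
  `(x, 2 x]`, up to `ε` times the order of Q1;
* the number of `p` in `S` such that `N - p` is a prime or a product of two primes larger than
  `(8 x) ^ (1 / 9)` has exactly the order of magnitude of Q1 (Chen's theorem with the right order).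

In particular there is one set `P` of primes, with `O(log ^ 3 x)` elements up to `x`, such that every large
even `N` has at least `c (N / φ N) log N` representations `N = p + P₂`, `p` in `P`, `N / 8 < p ≤ N / 2`.
-/

set_option autoImplicit false

namespace Pool.Agent.Results.MP_629a14_nt.SparseFaithfulPrimes

open Finset Filter

/-- the primes of the interval `(x, 2 x]` -/
def Primes (x : ℕ) : Finset ℕ := (Ioc x (2 * x)).filter Nat.Prime

/-- `n` is a prime or a product of two primes, and all its prime factors are larger than `z` -/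
def P2 (z : ℝ) (n : ℕ) : Prop :=
  (n.Prime ∨ ∃ a b : ℕ, a.Prime ∧ b.Prime ∧ n = a * b) ∧ ∀ q : ℕ, q.Prime → q ∣ n → z < q

open Classical in
/-- the number of `p` in `S` such that `N - p` is a prime or a product of two primes larger than `z` -/
noncomputable def chen (z : ℝ) (S : Finset ℕ) (N : ℕ) : ℕ := (S.filter (fun p => P2 z (N - p))).card

/-- the number of `p` in `S` with `N - p` prime -/
def gold (S : Finset ℕ) (N : ℕ) : ℕ := (S.filter (fun p => (N - p).Prime)).card

/-- the order of magnitude of Q1 for `m` primes below `N` -/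
noncomputable def order (m : ℝ) (N : ℕ) : ℝ := (N : ℝ) / N.totient * (m / Real.log N)

theorem chen_eq (z : ℝ) (S : Finset ℕ) (N : ℕ) : Pool.Agent.Q253.Thin.chen z S N = chen z S N := rfl

theorem P2_mono {z z' : ℝ} (h : z' ≤ z) {n : ℕ} (hn : P2 z n) : P2 z' n :=
  ⟨hn.1, fun q hq hd => lt_of_le_of_lt h (hn.2 q hq hd)⟩

/-- `K log ^ 2` primes are available -/
theorem many (K : ℝ) : ∃ x₀ : ℕ, ∀ x : ℕ, x₀ ≤ x → K * Real.log x ^ 2 ≤ ((Primes x).card : ℝ) := by
  obtain ⟨x₁, h₁⟩ := Pool.Agent.Q253.Thin.PI_lower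
  have h2 := (isLittleO_log_rpow_rpow_atTop (s := 1) ((3 : ℕ) : ℝ) (by norm_num)).def
    (show (0 : ℝ) < 1 / (2 * (|K| + 1)) by positivity)
  obtain ⟨x₂, h₂⟩ := eventually_atTop.1 (tendsto_natCast_atTop_atTop (R := ℝ) |>.eventually h2)
  refine ⟨max (max x₁ x₂) 3, fun x hx => ?_⟩
  have g1 := h₁ x ((le_max_left _ _).trans ((le_max_left _ _).trans hx))
  have g2 := h₂ x ((le_max_right _ _).trans ((le_max_left _ _).trans hx))
  have g3 : 3 ≤ x := (le_max_right _ _).trans hx
  have hx0 : (0 : ℝ) < x := by exact_mod_cast (by omega : 0 < x)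
  have hl : 0 < Real.log x := Real.log_pos (by exact_mod_cast (by omega : 1 < x))
  rw [Real.rpow_natCast, Real.rpow_one, Real.norm_of_nonneg (by positivity), Real.norm_of_nonneg hx0.le,
    div_mul_eq_mul_div, one_mul, le_div_iff₀ (by positivity)] at g2
  refine le_trans ?_ g1
  rw [← mul_div_assoc, le_div_iff₀ hl]
  have h3 : K * Real.log x ^ 2 * Real.log x ≤ |K| * Real.log x ^ 3 := by
    calc K * Real.log x ^ 2 * Real.log x = K * Real.log x ^ 3 := by ring
      _ ≤ _ := mul_le_mul_of_nonneg_right (le_abs_self K) (by positivity)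
  have h4 : 0 ≤ Real.log x ^ 3 := by positivity
  nlinarith

/-- **Sparse sets of primes that represent the Goldbach counts and the Chen counts of all even numbers.** -/
theorem result :
    (∃ c C : ℝ, 0 < c ∧ 0 < C ∧ ∀ ε : ℝ, 0 < ε → ∃ K : ℝ, 0 < K ∧ ∃ x₀ : ℕ, ∀ x : ℕ, x₀ ≤ x →
      ∀ m : ℝ, K * Real.log x ^ 2 ≤ m → m ≤ (Primes x).card → ∃ S ⊆ Primes x,
        |(S.card : ℝ) - m| ≤ ε * m ∧ ∀ N : ℕ, Even N → 4 * x ≤ N → N ≤ 8 * x →
          c * order m N ≤ chen (((8 * x : ℕ) : ℝ) ^ (1 / 9 : ℝ)) S N ∧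
          chen (((8 * x : ℕ) : ℝ) ^ (1 / 9 : ℝ)) S N ≤ C * order m N ∧
          |(gold S N : ℝ) - m / (Primes x).card * gold (Primes x) N| ≤ ε * order m N) ∧
    (∃ c C : ℝ, 0 < c ∧ 0 < C ∧ ∃ P : Set ℕ, (∀ p ∈ P, p.Prime) ∧
      (∀ x : ℕ, 2 ≤ x → ∃ T : Finset ℕ, (∀ p ∈ P, p ≤ x → p ∈ T) ∧ (T.card : ℝ) ≤ C * Real.log x ^ 3) ∧
      ∃ N₀ : ℕ, ∀ N : ℕ, N₀ ≤ N → Even N → ∃ T : Finset ℕ,
        (∀ p ∈ T, p ∈ P ∧ N < 8 * p ∧ 2 * p ≤ N ∧ P2 ((N : ℝ) ^ (1 / 9 : ℝ)) (N - p)) ∧
        c * (N / N.totient * Real.log N) ≤ T.card) := by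
  classical
  have hA := Pool.Agent.Q253.Thin.goldSample
  refine ⟨hA, ?_⟩
  obtain ⟨c, C, hc, hC, h⟩ := hA
  obtain ⟨K, hK, x₀, hx₀⟩ := h 1 one_pos
  obtain ⟨x₁, hx₁⟩ := many K
  have hl2 : 0 < Real.log 2 := Real.log_pos (by norm_num)
  have hl21 : Real.log 2 < 1 := by
    have := Real.log_two_lt_d9
    linarith
  have step : ∀ i : ℕ, ∃ S : Finset ℕ, (∀ p ∈ S, p ∈ Primes (2 ^ i)) ∧
      (S.card : ℝ) ≤ 2 * K * i ^ 2 ∧ (max x₀ x₁ ≤ i → ∀ N : ℕ, Even N → 4 * 2 ^ i ≤ N → N ≤ 8 * 2 ^ i →
        c * (N / N.totient * (K * Real.log ((2 ^ i : ℕ) : ℝ) ^ 2 / Real.log N)) ≤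
          chen (((8 * 2 ^ i : ℕ) : ℝ) ^ (1 / 9 : ℝ)) S N) := by
    intro i
    by_cases hi : max x₀ x₁ ≤ i
    · have hpow : i ≤ 2 ^ i := Nat.lt_two_pow_self.le
      obtain ⟨S, hS, hSc, hSN⟩ := hx₀ (2 ^ i) ((le_max_left _ _).trans (hi.trans hpow))
        (K * Real.log ((2 ^ i : ℕ) : ℝ) ^ 2) le_rfl (hx₁ (2 ^ i) ((le_max_right _ _).trans (hi.trans hpow)))
      refine ⟨S, fun p hp => hS hp, ?_, fun _ N hN h4 h8 => (hSN N hN h4 h8).1⟩
      have h1 := (abs_le.1 hSc).2
      have h2 : Real.log ((2 ^ i : ℕ) : ℝ) ^ 2 ≤ (i : ℝ) ^ 2 := by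
        push_cast
        rw [Real.log_pow]
        apply pow_le_pow_left₀ (by positivity)
        have : (0 : ℝ) ≤ i := Nat.cast_nonneg i
        nlinarith
      have h3 := mul_le_mul_of_nonneg_left h2 hK.le
      linarith
    · refine ⟨∅, by simp, ?_, fun hi' => absurd hi' hi⟩
      rw [card_empty, Nat.cast_zero]
      positivity
  choose S hS hSc hSN using step
  refine ⟨c * K / 4, 4 * K / Real.log 2 ^ 3, by positivity, by positivity, {p | ∃ i, p ∈ S i}, ?_, ?_, ?_⟩
  · rintro p ⟨i, hi⟩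
    have := hS i p hi
    unfold Primes at this
    exact (mem_filter.1 this).2
  · intro x hx
    set L := Nat.log 2 x with hL
    have hL1 : 1 ≤ L := (Nat.le_log_iff_pow_le (by norm_num) (by omega)).2 (by simpa using hx)
    refine ⟨(range (L + 1)).biUnion S, ?_, ?_⟩
    · rintro p ⟨i, hi⟩ hpx
      rw [mem_biUnion]
      refine ⟨i, ?_, hi⟩
      rw [mem_range]
      have h1 := hS i p hi
      unfold Primes at h1
      rw [mem_filter, mem_Ioc] at h1
      have h2 : 2 ^ i ≤ x := by omega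
      have h3 : i ≤ L := (Nat.le_log_iff_pow_le (by norm_num) (by omega)).2 h2
      omega
    · have h1 : (((range (L + 1)).biUnion S).card : ℝ) ≤ ∑ i ∈ range (L + 1), ((S i).card : ℝ) := by
        exact_mod_cast card_biUnion_le
      refine h1.trans ?_
      have h2 : ∑ i ∈ range (L + 1), ((S i).card : ℝ) ≤ ∑ _i ∈ range (L + 1), 2 * K * (L : ℝ) ^ 2 := by
        apply sum_le_sum
        intro i hi
        rw [mem_range] at hi
        refine (hSc i).trans ?_
        apply mul_le_mul_of_nonneg_left _ (by positivity)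
        apply pow_le_pow_left₀ (by positivity)
        exact_mod_cast (by omega : i ≤ L)
      refine h2.trans ?_
      rw [sum_const, card_range, nsmul_eq_mul]
      push_cast
      have hLr : (1 : ℝ) ≤ L := by exact_mod_cast hL1
      have h3 : (L : ℝ) * Real.log 2 ≤ Real.log x := by
        have h4 : 2 ^ L ≤ x := Nat.pow_log_le_self 2 (by omega)
        have h5 : ((2 : ℝ)) ^ L ≤ x := by exact_mod_cast h4
        have h6 := Real.log_le_log (by positivity) h5
        rwa [Real.log_pow] at h6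
      have h4 : (L : ℝ) ≤ Real.log x / Real.log 2 := by
        rw [le_div_iff₀ hl2]
        exact h3
      have h5 : (L : ℝ) ^ 3 ≤ (Real.log x / Real.log 2) ^ 3 := pow_le_pow_left₀ (by positivity) h4 3
      calc ((L : ℝ) + 1) * (2 * K * (L : ℝ) ^ 2) ≤ (2 * L) * (2 * K * (L : ℝ) ^ 2) := by
            apply mul_le_mul_of_nonneg_right _ (by positivity)
            linarith
        _ = 4 * K * (L : ℝ) ^ 3 := by ring
        _ ≤ 4 * K * (Real.log x / Real.log 2) ^ 3 := mul_le_mul_of_nonneg_left h5 (by positivity)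
        _ = 4 * K / Real.log 2 ^ 3 * Real.log x ^ 3 := by rw [div_pow]; ring
  · refine ⟨64 * 2 ^ (max x₀ x₁), ?_⟩
    intro N hN hNe
    have hM : 0 < 2 ^ (max x₀ x₁) := by positivity
    have hN64 : 64 ≤ N := by omega
    set l := Nat.log 2 N with hl
    have hl6 : max x₀ x₁ + 6 ≤ l := by
      apply (Nat.le_log_iff_pow_le (by norm_num) (by omega)).2
      rw [pow_add]
      omega
    set i := l - 2 with hi
    have hil : l = i + 2 := by omega
    have h1 : 2 ^ l ≤ N := Nat.pow_log_le_self 2 (by omega)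
    have h2 : N < 2 ^ (l + 1) := Nat.lt_pow_succ_log_self (by norm_num) N
    have h3 : 4 * 2 ^ i ≤ N := by
      rw [hil, pow_add] at h1
      omega
    have h4 : N < 8 * 2 ^ i := by
      rw [hil, show i + 2 + 1 = i + 3 by ring, pow_add] at h2
      omega
    have h5 := hSN i (by omega) N hNe h3 h4.le
    refine ⟨(S i).filter (fun p => P2 (((8 * 2 ^ i : ℕ) : ℝ) ^ (1 / 9 : ℝ)) (N - p)), ?_, ?_⟩
    · intro p hp
      rw [mem_filter] at hp
      have h6 := hS i p hp.1
      unfold Primes at h6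
      rw [mem_filter, mem_Ioc] at h6
      refine ⟨⟨i, hp.1⟩, by omega, by omega, P2_mono ?_ hp.2⟩
      apply Real.rpow_le_rpow (by positivity) _ (by norm_num)
      exact_mod_cast h4.le
    · have h6 : (N : ℝ) ≤ ((2 ^ i : ℕ) : ℝ) ^ 2 := by
        have h7 : 8 ≤ 2 ^ i := by
          calc 8 = 2 ^ 3 := by norm_num
            _ ≤ 2 ^ i := Nat.pow_le_pow_right (by norm_num) (by omega)
        have h8 : N ≤ (2 ^ i) ^ 2 := by nlinarith
        exact_mod_cast h8
      have hN0 : (0 : ℝ) < N := by exact_mod_cast (by omega : 0 < N)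
      have hlN : 0 < Real.log N := Real.log_pos (by exact_mod_cast (by omega : 1 < N))
      have h7 := Real.log_le_log hN0 h6
      rw [Real.log_pow, Nat.cast_ofNat] at h7
      have h8 : Real.log N / 2 ≤ Real.log ((2 ^ i : ℕ) : ℝ) := by linarith
      have h9 : (Real.log N / 2) ^ 2 ≤ Real.log ((2 ^ i : ℕ) : ℝ) ^ 2 := pow_le_pow_left₀ (by positivity) h8 2
      have hφ : (0 : ℝ) < N.totient := by exact_mod_cast Nat.totient_pos.2 (by omega)
      refine le_trans ?_ h5
      have h10 : c * K / 4 * ((N : ℝ) / N.totient * Real.log N) =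
          c * (N / N.totient * (K * (Real.log N / 2) ^ 2 / Real.log N)) := by
        field_simp
        ring
      rw [h10]
      gcongr

end Pool.Agent.Results.MP_629a14_nt.SparseFaithfulPrimes
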